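import Pool.Agent.Helper91.IP.Defs

/-!
# Project IP, piece A2: the square of `X = ∑_{i<j} c_i c_j τ_ij` when `∑ c = 0`
-/

namespace Pool.Agent.Helper8.IP

open Finset Equiv Matrix Pool.Agent.Helper91.IP

variable {V : Type} [Fintype V] [DecidableEq V]

/-- sum over four distinct points -/
def S4 (Φ : V → V → V → V → ℝ) : ℝ :=
  ∑ i, ∑ j, ∑ k, ∑ l, (if D4 i j k l then Φ i j k l else 0)

/-- sum over three distinct points -/
def S3 (Φ : V → V → V → ℝ) : ℝ :=
  ∑ i, ∑ j, ∑ k, (if i ≠ j ∧ i ≠ k ∧ j ≠ k then Φ i j k else 0)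

/-- sum over two distinct points -/
def S2 (Φ : V → V → ℝ) : ℝ := ∑ i, ∑ j, (if i ≠ j then Φ i j else 0)

theorem S4_congr {Φ Ψ : V → V → V → V → ℝ} (h : ∀ i j k l, D4 i j k l → Φ i j k l = Ψ i j k l) :
    S4 Φ = S4 Ψ := by
  refine sum_congr rfl fun i _ => sum_congr rfl fun j _ => sum_congr rfl fun k _ =>
    sum_congr rfl fun l _ => ?_
  split_ifs with hd
  · exact h i j k l hd
  · rfl

theorem S3_congr {Φ Ψ : V → V → V → ℝ} (h : ∀ i j k, i ≠ j → i ≠ k → j ≠ k → Φ i j k = Ψ i j k) :
    S3 Φ = S3 Ψ := by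
  refine sum_congr rfl fun i _ => sum_congr rfl fun j _ => sum_congr rfl fun k _ => ?_
  split_ifs with hd
  · exact h i j k hd.1 hd.2.1 hd.2.2
  · rfl

theorem S2_congr {Φ Ψ : V → V → ℝ} (h : ∀ i j, i ≠ j → Φ i j = Ψ i j) : S2 Φ = S2 Ψ := by
  refine sum_congr rfl fun i _ => sum_congr rfl fun j _ => ?_
  split_ifs with hd
  · exact h i j hd
  · rfl

theorem S4_add (Φ Ψ : V → V → V → V → ℝ) :
    S4 (fun i j k l => Φ i j k l + Ψ i j k l) = S4 Φ + S4 Ψ := by
  unfold S4
  simp only [← sum_add_distrib]
  refine sum_congr rfl fun i _ => sum_congr rfl fun j _ => sum_congr rfl fun k _ =>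
    sum_congr rfl fun l _ => ?_
  split_ifs <;> simp

theorem S4_mul (a : ℝ) (Φ : V → V → V → V → ℝ) :
    S4 (fun i j k l => a * Φ i j k l) = a * S4 Φ := by
  unfold S4
  simp only [mul_sum]
  refine sum_congr rfl fun i _ => sum_congr rfl fun j _ => sum_congr rfl fun k _ =>
    sum_congr rfl fun l _ => ?_
  split_ifs <;> simp

theorem S3_add (Φ Ψ : V → V → V → ℝ) :
    S3 (fun i j k => Φ i j k + Ψ i j k) = S3 Φ + S3 Ψ := by
  unfold S3
  simp only [← sum_add_distrib]
  refine sum_congr rfl fun i _ => sum_congr rfl fun j _ => sum_congr rfl fun k _ => ?_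
  split_ifs <;> simp

theorem S3_mul (a : ℝ) (Φ : V → V → V → ℝ) : S3 (fun i j k => a * Φ i j k) = a * S3 Φ := by
  unfold S3
  simp only [mul_sum]
  refine sum_congr rfl fun i _ => sum_congr rfl fun j _ => sum_congr rfl fun k _ => ?_
  split_ifs <;> simp

theorem S2_mul (a : ℝ) (Φ : V → V → ℝ) : S2 (fun i j => a * Φ i j) = a * S2 Φ := by
  unfold S2
  simp only [mul_sum]
  refine sum_congr rfl fun i _ => sum_congr rfl fun j _ => ?_
  split_ifs <;> simp

/-! ### relabelling -/

theorem S4_12 (Φ : V → V → V → V → ℝ) : S4 (fun i j k l => Φ j i k l) = S4 Φ := by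
  unfold S4
  rw [sum_comm]
  refine sum_congr rfl fun i _ => sum_congr rfl fun j _ => sum_congr rfl fun k _ =>
    sum_congr rfl fun l _ => ?_
  refine if_congr ?_ rfl rfl
  unfold D4
  constructor <;> rintro ⟨h1, h2, h3, h4, h5, h6⟩ <;>
    exact ⟨h1.symm, h4, h5, h2, h3, h6⟩

theorem S4_23 (Φ : V → V → V → V → ℝ) : S4 (fun i j k l => Φ i k j l) = S4 Φ := by
  unfold S4
  refine sum_congr rfl fun i _ => ?_
  rw [sum_comm]
  refine sum_congr rfl fun j _ => sum_congr rfl fun k _ =>
    sum_congr rfl fun l _ => ?_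
  refine if_congr ?_ rfl rfl
  unfold D4
  constructor <;> rintro ⟨h1, h2, h3, h4, h5, h6⟩ <;>
    exact ⟨h2, h1, h3, h4.symm, h6, h5⟩

theorem S4_34 (Φ : V → V → V → V → ℝ) : S4 (fun i j k l => Φ i j l k) = S4 Φ := by
  unfold S4
  refine sum_congr rfl fun i _ => sum_congr rfl fun j _ => ?_
  rw [sum_comm]
  refine sum_congr rfl fun k _ => sum_congr rfl fun l _ => ?_
  refine if_congr ?_ rfl rfl
  unfold D4
  constructor <;> rintro ⟨h1, h2, h3, h4, h5, h6⟩ <;>
    exact ⟨h1, h3, h2, h5, h4, h6.symm⟩

theorem S3_12 (Φ : V → V → V → ℝ) : S3 (fun i j k => Φ j i k) = S3 Φ := by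
  unfold S3
  rw [sum_comm]
  refine sum_congr rfl fun i _ => sum_congr rfl fun j _ => sum_congr rfl fun k _ => ?_
  refine if_congr ?_ rfl rfl
  constructor <;> rintro ⟨h1, h2, h3⟩ <;> exact ⟨h1.symm, h3, h2⟩

theorem S3_23 (Φ : V → V → V → ℝ) : S3 (fun i j k => Φ i k j) = S3 Φ := by
  unfold S3
  refine sum_congr rfl fun i _ => ?_
  rw [sum_comm]
  refine sum_congr rfl fun j _ => sum_congr rfl fun k _ => ?_
  refine if_congr ?_ rfl rfl
  constructor <;> rintro ⟨h1, h2, h3⟩ <;> exact ⟨h2, h1, h3.symm⟩

/-! ### splitting -/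

theorem inner_split (H : V → V → ℝ) {i j : V} (hij : i ≠ j) :
    ∑ k, ∑ l, (if k ≠ l then H k l else 0) =
      (∑ k, ∑ l, (if D4 i j k l then H k l else 0)) + (H i j + H j i) +
      ∑ l, (if i ≠ j ∧ i ≠ l ∧ j ≠ l then H i l + H j l + H l i + H l j else 0) := by
  have key : ∀ k l, (if k ≠ l then H k l else 0) = (if D4 i j k l then H k l else 0) +
      (if k = i then (if l = j then H i j else 0) else 0) +
      (if k = j then (if l = i then H j i else 0) else 0) +
      (if k = i then (if i ≠ l ∧ j ≠ l then H i l else 0) else 0) +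
      (if k = j then (if i ≠ l ∧ j ≠ l then H j l else 0) else 0) +
      (if l = i then (if i ≠ k ∧ j ≠ k then H k i else 0) else 0) +
      (if l = j then (if i ≠ k ∧ j ≠ k then H k j else 0) else 0) := by
    intro k l
    unfold D4
    by_cases h1 : k = i
    · subst h1
      by_cases h2 : l = k
      · subst h2
        simp [hij]
      · by_cases h3 : l = j
        · subst h3
          simp [hij, h2, Ne.symm h2]
        · simp [hij, h2, Ne.symm h2, h3, Ne.symm h3]
    · by_cases h2 : k = j
      · subst h2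
        by_cases h3 : l = k
        · subst h3
          simp [h1]
        · by_cases h4 : l = i
          · subst h4
            simp [hij, h1, h3, Ne.symm h3]
          · simp [hij, h1, h3, Ne.symm h3, h4, Ne.symm h4]
      · by_cases h3 : l = i
        · subst h3
          simp [hij, h1, h2, Ne.symm h1, Ne.symm h2]
        · by_cases h4 : l = j
          · subst h4
            simp [hij, h1, h2, Ne.symm h1, Ne.symm h2, hij.symm]
          · simp [hij, h1, h2, h3, h4, Ne.symm h1, Ne.symm h2, Ne.symm h3, Ne.symm h4]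
  simp only [key, sum_add_distrib]
  have e1 : ∑ k, ∑ l, (if k = i then (if l = j then H i j else 0) else 0) = H i j := by
    rw [sum_eq_single i]
    · simp
    · intro b _ hb
      simp [hb]
    · simp
  have e2 : ∑ k, ∑ l, (if k = j then (if l = i then H j i else 0) else 0) = H j i := by
    rw [sum_eq_single j]
    · simp
    · intro b _ hb
      simp [hb]
    · simp
  have e3 : ∑ k, ∑ l, (if k = i then (if i ≠ l ∧ j ≠ l then H i l else 0) else 0) =
      ∑ l, (if i ≠ l ∧ j ≠ l then H i l else 0) := by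
    rw [sum_eq_single i]
    · simp
    · intro b _ hb
      simp [hb]
    · simp
  have e4 : ∑ k, ∑ l, (if k = j then (if i ≠ l ∧ j ≠ l then H j l else 0) else 0) =
      ∑ l, (if i ≠ l ∧ j ≠ l then H j l else 0) := by
    rw [sum_eq_single j]
    · simp
    · intro b _ hb
      simp [hb]
    · simp
  have e5 : ∑ k, ∑ l, (if l = i then (if i ≠ k ∧ j ≠ k then H k i else 0) else 0) =
      ∑ l, (if i ≠ l ∧ j ≠ l then H l i else 0) := by
    refine sum_congr rfl fun k _ => ?_
    rw [sum_eq_single i]
    · simp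
    · intro b _ hb
      simp [hb]
    · simp
  have e6 : ∑ k, ∑ l, (if l = j then (if i ≠ k ∧ j ≠ k then H k j else 0) else 0) =
      ∑ l, (if i ≠ l ∧ j ≠ l then H l j else 0) := by
    refine sum_congr rfl fun k _ => ?_
    rw [sum_eq_single j]
    · simp
    · intro b _ hb
      simp [hb]
    · simp
  have e7 : ∑ l, (if i ≠ j ∧ i ≠ l ∧ j ≠ l then H i l + H j l + H l i + H l j else 0) =
      ∑ l, (if i ≠ l ∧ j ≠ l then H i l else 0) + ∑ l, (if i ≠ l ∧ j ≠ l then H j l else 0) +
      ∑ l, (if i ≠ l ∧ j ≠ l then H l i else 0) + ∑ l, (if i ≠ l ∧ j ≠ l then H l j else 0) := by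
    simp only [← sum_add_distrib]
    refine sum_congr rfl fun l _ => ?_
    by_cases h : i ≠ l ∧ j ≠ l
    · rw [if_pos ⟨hij, h.1, h.2⟩, if_pos h, if_pos h, if_pos h, if_pos h]
    · rw [if_neg (fun hh => h hh.2), if_neg h, if_neg h, if_neg h, if_neg h]
      simp
  rw [e1, e2, e3, e4, e5, e6, e7]
  ring

theorem split (G : V → V → V → V → ℝ) :
    ∑ i, ∑ j, ∑ k, ∑ l, (if i ≠ j ∧ k ≠ l then G i j k l else 0) =
      S4 G + S2 (fun i j => G i j i j + G i j j i) +
      S3 (fun i j l => G i j i l + G i j j l + G i j l i + G i j l j) := by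
  unfold S4 S2 S3
  simp only [← sum_add_distrib]
  refine sum_congr rfl fun i _ => sum_congr rfl fun j _ => ?_
  by_cases hij : i = j
  · subst hij
    simp [D4]
  · have h := inner_split (G i j) hij
    simp only [ne_eq, hij, not_false_eq_true, true_and, if_true] at h ⊢
    exact h

/-! ### correlations -/

theorem cor_one (f : Perm V → ℝ) : cor f 1 = nsq f := by
  unfold cor nsq
  refine sum_congr rfl fun s _ => ?_
  rw [one_mul, sq]

theorem cor_inv (f : Perm V → ℝ) (g : Perm V) : cor f g⁻¹ = cor f g := by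
  unfold cor
  refine Fintype.sum_equiv (Equiv.mulLeft g⁻¹) _ _ fun s => ?_
  simp only [Equiv.coe_mulLeft, mul_inv_cancel_left]
  ring

theorem sum_two (f : Perm V → ℝ) (g h : Perm V) :
    ∑ s, f (g * s) * f (h * s) = cor f (h * g⁻¹) := by
  unfold cor
  refine Fintype.sum_equiv (Equiv.mulLeft g) _ _ fun s => ?_
  simp only [Equiv.coe_mulLeft, mul_assoc, inv_mul_cancel_left]

/-- the correlation with a three-cycle -/
def R3 (f : Perm V → ℝ) (i j l : V) : ℝ := cor f (swap i l * swap i j)

theorem R3_swap (f : Perm V → ℝ) (i j l : V) : R3 f i l j = R3 f i j l := by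
  unfold R3
  rw [← cor_inv f (swap i l * swap i j), _root_.mul_inv_rev, swap_inv, swap_inv]

theorem R3_rot (f : Perm V → ℝ) {i j l : V} (hij : i ≠ j) (hil : i ≠ l) (hjl : j ≠ l) :
    R3 f j l i = R3 f i j l := by
  unfold R3
  congr 1
  ext x
  simp only [Perm.coe_mul, Function.comp_apply]
  by_cases h1 : x = i
  · subst h1
    rw [swap_apply_of_ne_of_ne hij hil, swap_apply_right, swap_apply_left,
      swap_apply_of_ne_of_ne hij.symm hjl]
  · by_cases h2 : x = j
    · subst h2
      rw [swap_apply_left, swap_apply_of_ne_of_ne hjl.symm hil.symm, swap_apply_right,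
        swap_apply_left]
    · by_cases h3 : x = l
      · subst h3
        rw [swap_apply_right, swap_apply_left, swap_apply_of_ne_of_ne h1 h2, swap_apply_right]
      · rw [swap_apply_of_ne_of_ne h2 h3, swap_apply_of_ne_of_ne h2 h1,
          swap_apply_of_ne_of_ne h1 h2, swap_apply_of_ne_of_ne h1 h3]

theorem R3_12 (f : Perm V → ℝ) {i j l : V} (hij : i ≠ j) (hil : i ≠ l) (hjl : j ≠ l) :
    R3 f j i l = R3 f i j l := by
  rw [← R3_swap, R3_rot f hij hil hjl]

/-- the sum over triples in terms of the sum over quadruples -/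
theorem triple (c : V → ℝ) (hc : ∑ x, c x = 0) (R : V → V → V → ℝ)
    (h12 : ∀ i j l, i ≠ j → i ≠ l → j ≠ l → R j i l = R i j l)
    (h23 : ∀ i j l, i ≠ j → i ≠ l → j ≠ l → R i l j = R i j l) :
    3 * S3 (fun i j l => c i * c i * c j * c l * R i j l) =
      - S4 (fun i j k l => c i * c j * c k * c l * R i j k) := by
  have e1 : S3 (fun i j l => c i * c j * c j * c l * R i j l) =
      S3 (fun i j l => c i * c i * c j * c l * R i j l) := by
    rw [← S3_12]
    refine S3_congr fun i j l hij hil hjl => ?_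
    rw [h12 i j l hij hil hjl]
    ring
  have e2 : S3 (fun i j l => c i * c j * c l * c l * R i j l) =
      S3 (fun i j l => c i * c j * c j * c l * R i j l) := by
    rw [← S3_23]
    refine S3_congr fun i j l hij hil hjl => ?_
    rw [h23 i j l hij hil hjl]
    ring
  have e3 : S3 (fun i j l => c i * c i * c j * c l * R i j l + c i * c j * c j * c l * R i j l +
      c i * c j * c l * c l * R i j l) = 3 * S3 (fun i j l => c i * c i * c j * c l * R i j l) := by
    rw [S3_add, S3_add, e2, e1]
    ring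
  rw [← e3]
  unfold S3 S4
  simp only [← sum_neg_distrib]
  refine sum_congr rfl fun i _ => sum_congr rfl fun j _ => sum_congr rfl fun k _ => ?_
  by_cases h : i ≠ j ∧ i ≠ k ∧ j ≠ k
  · rw [if_pos h]
    obtain ⟨hij, hik, hjk⟩ := h
    have hs : ∑ l, (if D4 i j k l then c i * c j * c k * c l * R i j k else 0) =
        c i * c j * c k * R i j k * ∑ l, (if i ≠ l ∧ j ≠ l ∧ k ≠ l then c l else 0) := by
      rw [mul_sum]
      refine sum_congr rfl fun l _ => ?_
      by_cases hl : i ≠ l ∧ j ≠ l ∧ k ≠ l
      · rw [if_pos hl, if_pos ⟨hij, hik, hl.1, hjk, hl.2.1, hl.2.2⟩]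
        ring
      · rw [if_neg hl, if_neg (fun hh => hl ⟨hh.2.2.1, hh.2.2.2.2.1, hh.2.2.2.2.2⟩), mul_zero]
    have ht : ∑ l, (if i ≠ l ∧ j ≠ l ∧ k ≠ l then c l else 0) = - (c i + c j + c k) := by
      have hp : ∀ l, c l = (if i ≠ l ∧ j ≠ l ∧ k ≠ l then c l else 0) +
          ((if l = i then c i else 0) + (if l = j then c j else 0) +
            (if l = k then c k else 0)) := by
        intro l
        by_cases h1 : l = i
        · subst h1
          simp [hij, hik]
        · by_cases h2 : l = j
          · subst h2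
            simp [hij.symm, hjk]
          · by_cases h3 : l = k
            · subst h3
              simp [hik.symm, hjk.symm]
            · simp [h1, h2, h3, Ne.symm h1, Ne.symm h2, Ne.symm h3]
      have hq := hc
      rw [sum_congr rfl fun l _ => hp l] at hq
      simp only [sum_add_distrib, sum_ite_eq', mem_univ, if_true] at hq
      linarith
    rw [sum_neg_distrib, hs, ht]
    ring
  · rw [if_neg h]
    symm
    apply sum_eq_zero
    intro l _
    rw [if_neg (fun hh => h ⟨hh.1, hh.2.1, hh.2.2.2.1⟩), neg_zero]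

theorem expand (f : Perm V → ℝ) (c : V → ℝ) :
    4 * ∑ s, ((1 / 2) * ∑ i, ∑ j, (if i = j then 0 else c i * c j * f (swap i j * s))) ^ 2 =
      ∑ i, ∑ j, ∑ k, ∑ l, (if i ≠ j ∧ k ≠ l then
        c i * c j * c k * c l * cor f (swap k l * swap i j) else 0) := by
  have h1 : ∀ s : Perm V, 4 * ((1 / 2) * ∑ i, ∑ j, (if i = j then 0 else
      c i * c j * f (swap i j * s))) ^ 2 = ∑ i, ∑ j, ∑ k, ∑ l,
        (if i = j then 0 else c i * c j * f (swap i j * s)) *
          (if k = l then 0 else c k * c l * f (swap k l * s)) := by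
    intro s
    have : 4 * ((1 / 2) * ∑ i, ∑ j, (if i = j then 0 else
      c i * c j * f (swap i j * s))) ^ 2 = (∑ i, ∑ j, (if i = j then 0 else
      c i * c j * f (swap i j * s))) * (∑ k, ∑ l, (if k = l then 0 else
      c k * c l * f (swap k l * s))) := by ring
    rw [this]
    simp only [sum_mul]
    simp only [mul_sum]
  rw [mul_sum, sum_congr rfl fun s _ => h1 s]
  rw [sum_comm]
  refine sum_congr rfl fun i _ => ?_
  rw [sum_comm]
  refine sum_congr rfl fun j _ => ?_
  rw [sum_comm]
  refine sum_congr rfl fun k _ => ?_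
  rw [sum_comm]
  refine sum_congr rfl fun l _ => ?_
  by_cases hij : i = j
  · simp [hij]
  · by_cases hkl : k = l
    · simp [hkl]
    · rw [if_pos ⟨hij, hkl⟩]
      have h2 := sum_two f (swap i j) (swap k l)
      rw [swap_inv] at h2
      rw [← h2, mul_sum]
      refine sum_congr rfl fun s _ => ?_
      rw [if_neg hij, if_neg hkl]
      ring

theorem scalar (c : V → ℝ) (hc : ∑ x, c x = 0) :
    2 * S2 (fun i j => c i * c i * c j * c j) =
      (∑ x, c x ^ 2) ^ 2 + (1 / 3) * S4 (fun i j k l => c i * c j * c k * c l) := by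
  have h1 := split (fun i j k l => c i * c j * c k * c l)
  have h2 : ∑ i, ∑ j, ∑ k, ∑ l, (if i ≠ j ∧ k ≠ l then c i * c j * c k * c l else 0) =
      (∑ x, c x ^ 2) ^ 2 := by
    have h3 : ∑ i, ∑ j, (if i ≠ j then c i * c j else 0) = - ∑ x, c x ^ 2 := by
      have h4 : ∀ i j, (if i ≠ j then c i * c j else 0) = c i * c j -
          (if i = j then c i ^ 2 else 0) := by
        intro i j
        by_cases h : i = j
        · subst h
          simp [sq]
        · simp [h]
      simp only [h4, sum_sub_distrib, ← mul_sum, hc, sum_ite_eq, mem_univ, if_true]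
      simp
    have h5 : (∑ x, c x ^ 2) ^ 2 = (∑ i, ∑ j, (if i ≠ j then c i * c j else 0)) *
        (∑ k, ∑ l, (if k ≠ l then c k * c l else 0)) := by
      rw [h3]
      ring
    rw [h5]
    simp only [sum_mul]
    simp only [mul_sum]
    refine sum_congr rfl fun i _ => sum_congr rfl fun j _ => sum_congr rfl fun k _ =>
      sum_congr rfl fun l _ => ?_
    by_cases hij : i = j
    · simp [hij]
    · by_cases hkl : k = l
      · simp [hkl]
      · simp [hij, hkl, mul_assoc]
  have h6 : S2 (fun i j => c i * c j * c i * c j + c i * c j * c j * c i) =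
      2 * S2 (fun i j => c i * c i * c j * c j) := by
    rw [← S2_mul]
    refine S2_congr fun i j _ => ?_
    ring
  have h7 : S3 (fun i j l => c i * c j * c i * c l + c i * c j * c j * c l +
      c i * c j * c l * c i + c i * c j * c l * c j) =
      4 * S3 (fun i j l => c i * c i * c j * c l * 1) := by
    have h8 : S3 (fun i j l => c i * c j * c i * c l + c i * c j * c j * c l +
      c i * c j * c l * c i + c i * c j * c l * c j) =
      S3 (fun i j l => 2 * (c i * c i * c j * c l * 1)) +
      S3 (fun i j l => 2 * (c j * c j * c i * c l * 1)) := by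
      rw [← S3_add]
      refine S3_congr fun i j l _ _ _ => ?_
      ring
    rw [h8, S3_mul, S3_mul, S3_12 (fun i j l => c i * c i * c j * c l * 1)]
    ring
  have h8 := triple c hc (fun _ _ _ => 1) (fun _ _ _ _ _ _ => rfl) (fun _ _ _ _ _ _ => rfl)
  have h9 : S4 (fun i j k l => c i * c j * c k * c l * 1) =
      S4 (fun i j k l => c i * c j * c k * c l) := S4_congr fun i j k l _ => mul_one _
  rw [h9] at h8
  rw [h2, h6, h7] at h1
  linarith

/-- IP-A2: the square of `X = ∑_{i<j} c_i c_j τ_ij` when `∑ c = 0` -/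
theorem X_sq (f : Perm V → ℝ) (c : V → ℝ) (hc : ∑ x, c x = 0) :
    ∑ s, ((1 / 2) * ∑ i, ∑ j, (if i = j then 0 else c i * c j * f (swap i j * s))) ^ 2 =
      ((1 / 2) * ∑ x, c x ^ 2) ^ 2 * nsq f +
      (1 / 24) * ∑ i, ∑ j, ∑ k, ∑ l,
        (if D4 i j k l then c i * c j * c k * c l * e4 f i j k l else 0) := by
  have h1 := expand f c
  rw [split (fun i j k l => c i * c j * c k * c l * cor f (swap k l * swap i j))] at h1
  -- the pairs
  have h2 : S2 (fun i j => c i * c j * c i * c j * cor f (swap i j * swap i j) +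
      c i * c j * c j * c i * cor f (swap j i * swap i j)) =
      nsq f * (2 * S2 (fun i j => c i * c i * c j * c j)) := by
    rw [← S2_mul, ← S2_mul]
    refine S2_congr fun i j _ => ?_
    rw [Equiv.swap_comm j i, Equiv.swap_mul_self, cor_one]
    ring
  -- the triples
  have h3 : S3 (fun i j l => c i * c j * c i * c l * cor f (swap i l * swap i j) +
      c i * c j * c j * c l * cor f (swap j l * swap i j) +
      c i * c j * c l * c i * cor f (swap l i * swap i j) +
      c i * c j * c l * c j * cor f (swap l j * swap i j)) =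
      4 * S3 (fun i j l => c i * c i * c j * c l * R3 f i j l) := by
    have h8 : S3 (fun i j l => c i * c j * c i * c l * cor f (swap i l * swap i j) +
      c i * c j * c j * c l * cor f (swap j l * swap i j) +
      c i * c j * c l * c i * cor f (swap l i * swap i j) +
      c i * c j * c l * c j * cor f (swap l j * swap i j)) =
      S3 (fun i j l => 2 * (c i * c i * c j * c l * R3 f i j l)) +
      S3 (fun i j l => 2 * (c j * c j * c i * c l * R3 f j i l)) := by
      rw [← S3_add]
      refine S3_congr fun i j l _ _ _ => ?_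
      unfold R3
      rw [Equiv.swap_comm l i, Equiv.swap_comm l j, Equiv.swap_comm j i]
      ring
    rw [h8, S3_mul, S3_mul, S3_12 (fun i j l => c i * c i * c j * c l * R3 f i j l)]
    ring
  have h4 := triple c hc (R3 f) (fun i j l hij hil hjl => R3_12 f hij hil hjl)
    (fun i j l _ _ _ => R3_swap f i j l)
  have h5 := scalar c hc
  -- the right hand side
  have h6 : (∑ i, ∑ j, ∑ k, ∑ l,
      (if D4 i j k l then c i * c j * c k * c l * e4 f i j k l else 0)) =
      S4 (fun i j k l => (2 * nsq f) * (c i * c j * c k * c l)) +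
      (S4 (fun i j k l => 2 * (c i * c j * c k * c l * cor f (swap k l * swap i j))) +
      S4 (fun i j k l => 2 * (c i * c k * c j * c l * cor f (swap j l * swap i k))) +
      S4 (fun i j k l => 2 * (c j * c k * c i * c l * cor f (swap i l * swap j k)))) +
      (S4 (fun i j k l => (-2) * (c i * c j * c k * c l * R3 f i j k)) +
      S4 (fun i j k l => (-2) * (c i * c j * c l * c k * R3 f i j l)) +
      S4 (fun i j k l => (-2) * (c i * c k * c l * c j * R3 f i k l)) +
      S4 (fun i j k l => (-2) * (c j * c k * c l * c i * R3 f j k l))) := by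
    change S4 (fun i j k l => c i * c j * c k * c l * e4 f i j k l) = _
    simp only [← S4_add]
    refine S4_congr fun i j k l hd => ?_
    obtain ⟨hij, hik, hil, hjk, hjl, hkl⟩ := hd
    have r1 : cor f (swap i j * swap j k) = R3 f i j k := by
      rw [← R3_rot f hij hik hjk]
      unfold R3
      rw [Equiv.swap_comm j i]
    have r2 : cor f (swap i j * swap j l) = R3 f i j l := by
      rw [← R3_rot f hij hil hjl]
      unfold R3
      rw [Equiv.swap_comm j i]
    have r3 : cor f (swap i k * swap k l) = R3 f i k l := by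
      rw [← R3_rot f hik hil hkl]
      unfold R3
      rw [Equiv.swap_comm k i]
    have r4 : cor f (swap j k * swap k l) = R3 f j k l := by
      rw [← R3_rot f hjk hjl hkl]
      unfold R3
      rw [Equiv.swap_comm k j]
    have d1 : swap k l * swap i j = swap i j * swap k l :=
      (Perm.Disjoint.commute (Perm.disjoint_swap_swap (by simp [hij, hik, hil, hjk, hjl, hkl,
        hij.symm, hik.symm, hil.symm, hjk.symm, hjl.symm, hkl.symm]))).eq
    have d2 : swap j l * swap i k = swap i k * swap j l :=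
      (Perm.Disjoint.commute (Perm.disjoint_swap_swap (by simp [hij, hik, hil, hjk, hjl, hkl,
        hij.symm, hik.symm, hil.symm, hjk.symm, hjl.symm, hkl.symm]))).eq
    unfold e4
    rw [r1, r2, r3, r4, d1, d2]
    ring
  have q1 : S4 (fun i j k l => 2 * (c i * c k * c j * c l * cor f (swap j l * swap i k))) =
      S4 (fun i j k l => 2 * (c i * c j * c k * c l * cor f (swap k l * swap i j))) :=
    S4_23 (fun i j k l => 2 * (c i * c j * c k * c l * cor f (swap k l * swap i j)))
  have q2 : S4 (fun i j k l => 2 * (c j * c k * c i * c l * cor f (swap i l * swap j k))) =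
      S4 (fun i j k l => 2 * (c i * c k * c j * c l * cor f (swap j l * swap i k))) :=
    S4_12 (fun i j k l => 2 * (c i * c k * c j * c l * cor f (swap j l * swap i k)))
  have q3 : S4 (fun i j k l => (-2) * (c i * c j * c l * c k * R3 f i j l)) =
      S4 (fun i j k l => (-2) * (c i * c j * c k * c l * R3 f i j k)) :=
    S4_34 (fun i j k l => (-2) * (c i * c j * c k * c l * R3 f i j k))
  have q4 : S4 (fun i j k l => (-2) * (c i * c k * c l * c j * R3 f i k l)) =
      S4 (fun i j k l => (-2) * (c i * c j * c l * c k * R3 f i j l)) :=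
    S4_23 (fun i j k l => (-2) * (c i * c j * c l * c k * R3 f i j l))
  have q5 : S4 (fun i j k l => (-2) * (c j * c k * c l * c i * R3 f j k l)) =
      S4 (fun i j k l => (-2) * (c i * c k * c l * c j * R3 f i k l)) :=
    S4_12 (fun i j k l => (-2) * (c i * c k * c l * c j * R3 f i k l))
  rw [q5, q4, q3, q2, q1, S4_mul, S4_mul, S4_mul] at h6
  rw [h6]
  simp only [h2, h3] at h1
  linear_combination (1 / 4) * h1 + (1 / 3) * h4 + (nsq f / 4) * h5

end Pool.Agent.Helper8.IP
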